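import Mathlib

section

/-! Unsigned random cluster representation of the clock approximation of the plane rotator:
definitions. A state carries the moduli `(c, s)` of cosine and sine at every site, a red edge set
`w` (clusters of the sign of the cosine) and a blue edge set `b` (sign of the sine). -/

open Finset Real

namespace Pool.Agent.XYU

open Classical

noncomputable section

abbrev V := ℤ × ℤ
abbrev Fld := V → ZMod 2
abbrev Es := Finset (Sym2 V)

/-- unsigned configuration -/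
@[ext] structure UC where
  a : V → ℝ × ℝ
  w : Es
  b : Es

/-- free sites `L`, free edges `E`, frozen data `x`, admissible red / blue sign fields `T`, `U` -/
structure Sys where
  L : Finset V
  E : Es
  x : UC
  T : Finset Fld
  U : Finset Fld

def ind (p : Prop) : ℝ := if p then 1 else 0

def st (q : ℕ) (j : Fin q) : ℝ × ℝ :=
  (sin ((((j : ℕ) : ℝ) + 1 / 2) * π / (2 * q)), cos ((((j : ℕ) : ℝ) + 1 / 2) * π / (2 * q)))

def site (q : ℕ) : Finset (ℝ × ℝ) := univ.image (st q)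

def As (q : ℕ) (L : Finset V) (a₀ : V → ℝ × ℝ) : Finset (V → ℝ × ℝ) :=
  univ.image fun (j : L → Fin q) v => if h : v ∈ L then st q (j ⟨v, h⟩) else a₀ v

def Ws (E w₀ : Es) : Finset Es := E.powerset.image fun w => w ∪ w₀ \ E

def Om (q : ℕ) (S : Sys) : Finset UC :=
  (As q S.L S.x.a ×ˢ Ws S.E S.x.w ×ˢ Ws S.E S.x.b).image fun p => ⟨p.1, p.2.1, p.2.2⟩

/-- product of the values at the two ends -/
def pr (c : V → ℝ) : Sym2 V → ℝ := Sym2.lift ⟨fun x y => c x * c y, fun _ _ => mul_comm _ _⟩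

/-- squared increment along an edge -/
def d2 (c : V → ℝ) : Sym2 V → ℝ :=
  Sym2.lift ⟨fun x y => (c x - c y) ^ 2, fun x y => by ring⟩

/-- `1` if the two signs agree, `-1` if not -/
def sg (σ : Fld) : Sym2 V → ℝ :=
  Sym2.lift ⟨fun x y => if σ x = σ y then 1 else -1, fun x y => by simp only [eq_comm]⟩

def ew (J : ℝ) (p : Prop) : ℝ := if p then exp J - exp (-J) else exp (-J)

def wr (β : ℝ) (E : Es) (c : V → ℝ) (w : Es) : ℝ := ∏ e ∈ E, ew (β * pr c e) (e ∈ w)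

/-- the sign field is constant along the edges of `w` -/
def cp (σ : Fld) (w : Es) : Prop := ∀ x y, s(x, y) ∈ w → σ x = σ y

def cnt (T : Finset Fld) (w : Es) : ℝ := (#(T.filter fun σ => cp σ w) : ℕ)

def wt (β : ℝ) (S : Sys) (u : UC) : ℝ :=
  wr β S.E (fun v => (u.a v).1) u.w * cnt S.T (u.w ∩ S.E) *
    (wr β S.E (fun v => (u.a v).2) u.b * cnt S.U (u.b ∩ S.E))

/-- unnormalised expectation -/
def Z (β : ℝ) (q : ℕ) (S : Sys) (f : UC → ℝ) : ℝ := ∑ u ∈ Om q S, wt β S u * f u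

/-- partition function -/
def Z1 (β : ℝ) (q : ℕ) (S : Sys) : ℝ := Z β q S fun _ => 1

/-- expectation -/
def Ex (β : ℝ) (q : ℕ) (S : Sys) (f : UC → ℝ) : ℝ := Z β q S f / Z1 β q S

def SG (T : Finset Fld) : Prop := 0 ∈ T ∧ ∀ σ ∈ T, ∀ τ ∈ T, σ + τ ∈ T

def Fl (L : Finset V) (T : Finset Fld) : Prop := ∀ σ ∈ T, ∀ v ∈ L, σ + Pi.single v 1 ∈ T

def A01 (a : V → ℝ × ℝ) : Prop :=
  ∀ v, (0 ≤ (a v).1 ∧ (a v).1 ≤ 1) ∧ 0 ≤ (a v).2 ∧ (a v).2 ≤ 1

/-- unsigned boundary condition -/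
structure Grp (S : Sys) : Prop where
  a01 : A01 S.x.a
  T0 : SG S.T
  U0 : SG S.U
  Tf : Fl S.L S.T
  Uf : Fl S.L S.U

/-- `T` is empty or a coset of `T₀` -/
def Cos (T₀ T : Finset Fld) : Prop := ∀ σ₀ ∈ T, ∀ σ, σ ∈ T ↔ σ + σ₀ ∈ T₀

/-- some admissible field is compatible -/
def AT (T : Finset Fld) (w : Es) : Prop := ∃ σ ∈ T, cp σ w

/-- on the ends of `E`, every field of `T'` is a field of `T` -/
def Sub (E : Es) (T' T : Finset Fld) : Prop := ∀ σ' ∈ T', ∃ σ ∈ T, ∀ e ∈ E, ∀ v ∈ e, σ v = σ' v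

def ple (p p' : ℝ × ℝ) : Prop := p.1 ≤ p'.1 ∧ p'.2 ≤ p.2

/-- the order on the free variables: cosine up, sine down, red up, blue down -/
def Le (L : Finset V) (E : Es) (u u' : UC) : Prop :=
  (∀ v ∈ L, ple (u.a v) (u'.a v)) ∧ u.w ∩ E ⊆ u'.w ∧ u'.b ∩ E ⊆ u.b

/-- `f` only reads the sites of `L` and the edges of `E` -/
def Dep (L : Finset V) (E : Es) (f : UC → ℝ) : Prop :=
  ∀ u u' : UC, (∀ v ∈ L, u.a v = u'.a v) → u.w ∩ E = u'.w ∩ E → u.b ∩ E = u'.b ∩ E → f u = f u'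

/-- freeze everything except `(L', E')` at the state `u` -/
def Sys.cond (S : Sys) (L' : Finset V) (E' : Es) (u : UC) : Sys :=
  ⟨L', E', u, S.T.filter fun σ => cp σ (u.w ∩ (S.E \ E')),
    S.U.filter fun σ => cp σ (u.b ∩ (S.E \ E'))⟩

/-- `(L', E')` is an admissible subregion -/
def Sys.In (S : Sys) (L' : Finset V) (E' : Es) : Prop :=
  L' ⊆ S.L ∧ E' ⊆ S.E ∧ ∀ e ∈ S.E, e ∉ E' → ∀ v ∈ e, v ∉ L'

/-- fields supported in `A` -/
def Flip (A : Finset V) : Finset Fld :=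
  A.powerset.image fun B v => if v ∈ B then 1 else 0

def ends (E : Es) : Finset V := E.biUnion fun e => e.toFinset

/-- the largest boundary condition, the sites of `X` being removed -/
def Smax (L : Finset V) (E : Es) (X : Finset V) : Sys :=
  ⟨L, E, ⟨fun v => if v ∈ X then (0, 0) else (1, 0), ∅, ∅⟩, Flip L, Flip (L ∪ ends E)⟩

/-- Dirichlet energy over the edges that avoid `X` -/
def En (E : Es) (X : Finset V) (χ : V → ℝ) : ℝ :=
  ∑ e ∈ E.filter fun e => ∀ v ∈ e, v ∉ X, d2 χ e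

/-- exchange of the colours -/
def UC.sw (u : UC) : UC := ⟨fun v => (u.a v).swap, u.b, u.w⟩

def Sys.sw (S : Sys) : Sys := ⟨S.L, S.E, S.x.sw, S.U, S.T⟩

/-- transport along a permutation of the sites -/
def UC.map (F : V ≃ V) (u : UC) : UC :=
  ⟨fun v => u.a (F.symm v), u.w.image (Sym2.map F), u.b.image (Sym2.map F)⟩

def Sys.map (F : V ≃ V) (S : Sys) : Sys :=
  ⟨S.L.image F, S.E.image (Sym2.map F), S.x.map F,
    S.T.image fun σ v => σ (F.symm v), S.U.image fun σ v => σ (F.symm v)⟩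

/-- Ising partition function -/
def Isum (β : ℝ) (E : Es) (T : Finset Fld) (c : V → ℝ) : ℝ :=
  ∑ σ ∈ T, exp (∑ e ∈ E, β * pr c e * sg σ e)

/-- one colour sum -/
def FK (β : ℝ) (E : Es) (T : Finset Fld) (c : V → ℝ) (w₀ : Es) (F : Es → ℝ) : ℝ :=
  ∑ w ∈ Ws E w₀, wr β E c w * cnt T (w ∩ E) * F w

/-- scalar product of the spins at the two ends -/
def ip (z : V → ℂ) : Sym2 V → ℝ :=
  Sym2.lift ⟨fun x y => (z x).re * (z y).re + (z x).im * (z y).im, fun x y => by ring⟩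

/-- clock spin -/
def clk (q : ℕ) (m : Fin (4 * q)) : ℂ :=
  Complex.exp (((((m : ℕ) : ℝ) + 1 / 2) * π / (2 * q) : ℝ) * Complex.I)

def spn (q : ℕ) (L : Finset V) (z₀ : V → ℂ) (m : L → Fin (4 * q)) : V → ℂ :=
  fun v => if h : v ∈ L then clk q (m ⟨v, h⟩) else z₀ v

/-- clock model: unnormalised expectation with frozen spins `z₀` -/
def Zs (β : ℝ) (q : ℕ) (L : Finset V) (E : Es) (z₀ : V → ℂ) (G : (V → ℂ) → ℝ) : ℝ :=
  ∑ m : L → Fin (4 * q), exp (∑ e ∈ E, β * ip (spn q L z₀ m) e) * G (spn q L z₀ m)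

def chi (t : ZMod 2) : ℝ := if t = 0 then 1 else -1

def vec (a : V → ℝ × ℝ) (σ τ : Fld) : V → ℂ :=
  fun v => ⟨chi (σ v) * (a v).1, chi (τ v) * (a v).2⟩

/-- fields equal to `σ₀` off `L` -/
def Off (L : Finset V) (σ₀ : Fld) : Finset Fld := (Flip L).image fun σ => σ + σ₀

end

end Pool.Agent.XYU

end

section

open Finset Real

namespace Pool.Agent.XYU

open Classical

noncomputable section

/-! Basic facts: membership, linearity, positivity. All sums are finite. `site q` is a chain for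
`ple` (sine increasing, cosine decreasing on the quarter circle), invariant under `Prod.swap`
(`j` goes to `q - 1 - j`). `Z_triple`: the map of `Om` is injective. -/

variable {β : ℝ} {q : ℕ} {S : Sys} {f g : UC → ℝ}

lemma ind_nonneg (p : Prop) : 0 ≤ ind p := by
  unfold ind; split_ifs <;> norm_num

lemma ind_le_one (p : Prop) : ind p ≤ 1 := by
  unfold ind; split_ifs <;> norm_num

lemma ind_pos {p : Prop} (h : p) : ind p = 1 := if_pos h

lemma ind_neg {p : Prop} (h : ¬ p) : ind p = 0 := if_neg h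

lemma ind_and (p r : Prop) : ind (p ∧ r) = ind p * ind r := by
  by_cases hp : p <;> by_cases hr : r <;> simp [ind, hp, hr]

lemma ind_not (p : Prop) : ind (¬ p) = 1 - ind p := by
  by_cases hp : p <;> simp [ind, hp]

lemma ind_mono {p r : Prop} (h : p → r) : ind p ≤ ind r := by
  by_cases hp : p
  · rw [ind_pos hp, ind_pos (h hp)]
  · rw [ind_neg hp]; exact ind_nonneg r

lemma ind_or_le (p r : Prop) : ind (p ∨ r) ≤ ind p + ind r := by
  by_cases hp : p <;> by_cases hr : r <;> simp [ind, hp, hr]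

lemma ind_exists_le {ι : Type*} (s : Finset ι) (p : ι → Prop) :
    ind (∃ i ∈ s, p i) ≤ ∑ i ∈ s, ind (p i) := by
  by_cases h : ∃ i ∈ s, p i
  · rw [ind_pos h]
    obtain ⟨i, hi, hp⟩ := h
    rw [← ind_pos hp]
    exact single_le_sum (f := fun i => ind (p i)) (fun j _ => ind_nonneg _) hi
  · rw [ind_neg h]
    exact sum_nonneg fun j _ => ind_nonneg _

lemma ind_forall {ι : Type*} (s : Finset ι) (p : ι → Prop) :
    ind (∀ i ∈ s, p i) = ∏ i ∈ s, ind (p i) := by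
  by_cases h : ∀ i ∈ s, p i
  · rw [ind_pos h, prod_eq_one fun i hi => ind_pos (h i hi)]
  · rw [ind_neg h]
    push Not at h
    obtain ⟨i, hi, hp⟩ := h
    exact (prod_eq_zero hi (ind_neg hp)).symm

/-- the angle of a site -/
def aa1_ang (q j : ℕ) : ℝ := ((j : ℝ) + 1 / 2) * π / (2 * q)

lemma aa1_st (j : Fin q) : st q j = (sin (aa1_ang q j), cos (aa1_ang q j)) := rfl

lemma aa1_mem (j : Fin q) : 0 ≤ aa1_ang q j ∧ aa1_ang q j ≤ π / 2 := by
  have hq : (0 : ℝ) < q := by exact_mod_cast j.pos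
  have hj : ((j : ℕ) : ℝ) + 1 ≤ q := by exact_mod_cast j.isLt
  refine ⟨by unfold aa1_ang; positivity, ?_⟩
  rw [aa1_ang, div_le_div_iff₀ (by positivity) (by norm_num)]
  nlinarith [pi_pos]

lemma aa1_mono {i j : Fin q} (h : i ≤ j) : aa1_ang q i ≤ aa1_ang q j := by
  have : ((i : ℕ) : ℝ) ≤ (j : ℕ) := by exact_mod_cast h
  unfold aa1_ang
  gcongr

lemma aa1_rev (j : Fin q) : aa1_ang q j.rev = π / 2 - aa1_ang q j := by
  have hq : (0 : ℝ) < q := by exact_mod_cast j.pos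
  have e : ((j.rev : ℕ) : ℝ) = q - (j + 1) := by
    rw [Fin.val_rev, Nat.cast_sub j.isLt]; push_cast; ring
  rw [aa1_ang, aa1_ang, e]
  field_simp
  ring

lemma st_inj (q : ℕ) : Function.Injective (st q) := by
  intro i j h
  have hq : (0 : ℝ) < q := by exact_mod_cast j.pos
  have h1 : cos (aa1_ang q i) = cos (aa1_ang q j) := congrArg Prod.snd h
  have h2 := injOn_cos ⟨(aa1_mem i).1, by linarith [(aa1_mem i).2, pi_pos]⟩
    ⟨(aa1_mem j).1, by linarith [(aa1_mem j).2, pi_pos]⟩ h1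
  rw [aa1_ang, aa1_ang, div_left_inj' (by positivity), mul_left_inj' pi_pos.ne',
    add_left_inj] at h2
  exact Fin.ext (by exact_mod_cast h2)

lemma st_ple {i j : Fin q} (h : i ≤ j) : ple (st q i) (st q j) := by
  rw [aa1_st, aa1_st]
  exact ⟨sin_le_sin_of_le_of_le_pi_div_two (by linarith [(aa1_mem i).1, pi_pos]) (aa1_mem j).2
      (aa1_mono h),
    cos_le_cos_of_nonneg_of_le_pi (aa1_mem i).1 (by linarith [(aa1_mem j).2, pi_pos])
      (aa1_mono h)⟩

lemma site_chain {p p' : ℝ × ℝ} (h : p ∈ site q) (h' : p' ∈ site q) : ple p p' ∨ ple p' p := by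
  obtain ⟨i, -, rfl⟩ := mem_image.1 h
  obtain ⟨j, -, rfl⟩ := mem_image.1 h'
  exact (le_total i j).imp st_ple st_ple

lemma site_01 {p : ℝ × ℝ} (h : p ∈ site q) : (0 ≤ p.1 ∧ p.1 ≤ 1) ∧ 0 ≤ p.2 ∧ p.2 ≤ 1 := by
  obtain ⟨i, -, rfl⟩ := mem_image.1 h
  obtain ⟨h0, h1⟩ := aa1_mem i
  rw [aa1_st]
  exact ⟨⟨sin_nonneg_of_nonneg_of_le_pi h0 (by linarith [pi_pos]), sin_le_one _⟩,
    cos_nonneg_of_neg_pi_div_two_le_of_le (by linarith [pi_pos]) h1, cos_le_one _⟩

lemma aa1_swap {p : ℝ × ℝ} (h : p ∈ site q) : p.swap ∈ site q := by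
  obtain ⟨i, -, rfl⟩ := mem_image.1 h
  refine mem_image.2 ⟨i.rev, mem_univ _, ?_⟩
  rw [aa1_st, aa1_st, aa1_rev, sin_pi_div_two_sub, cos_pi_div_two_sub]
  rfl

lemma site_swap {p : ℝ × ℝ} : p.swap ∈ site q ↔ p ∈ site q :=
  ⟨fun h => by simpa using aa1_swap h, aa1_swap⟩

lemma card_site (q : ℕ) : #(site q) = q := by
  rw [site, card_image_of_injective _ (st_inj q), card_univ, Fintype.card_fin]

end

end Pool.Agent.XYU

end

section

open Finset Real

namespace Pool.Agent.XYU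

open Classical

noncomputable section

variable {β : ℝ} {q : ℕ} {S : Sys} {f g : UC → ℝ}

lemma mem_As {L : Finset V} {a₀ a : V → ℝ × ℝ} :
    a ∈ As q L a₀ ↔ (∀ v ∉ L, a v = a₀ v) ∧ ∀ v ∈ L, a v ∈ site q := by
  simp only [As, mem_image, mem_univ, true_and]
  constructor
  · rintro ⟨j, rfl⟩
    refine ⟨fun v hv => by simp only [hv, dif_neg, not_false_eq_true], fun v hv => ?_⟩
    simp only [hv, dif_pos, site, mem_image, mem_univ, true_and]
    exact ⟨_, rfl⟩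
  · rintro ⟨h1, h2⟩
    have h3 : ∀ v : L, ∃ j : Fin q, st q j = a v := fun v => by
      have := h2 v v.2
      simpa only [site, mem_image, mem_univ, true_and] using this
    choose j hj using h3
    refine ⟨j, ?_⟩
    funext v
    by_cases hv : v ∈ L
    · rw [dif_pos hv, hj]
    · rw [dif_neg hv, h1 v hv]

lemma card_As (q : ℕ) (L : Finset V) (a₀ : V → ℝ × ℝ) : #(As q L a₀) = q ^ #L := by
  rw [As, card_image_of_injective]
  · simp
  · intro j j' h
    funext v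
    have := congrFun h v
    simp only [v.2, dif_pos] at this
    exact st_inj q this

lemma mem_Ws {E w₀ w : Es} : w ∈ Ws E w₀ ↔ w \ E = w₀ \ E := by
  simp only [Ws, mem_image, mem_powerset]
  constructor
  · rintro ⟨w', hw', rfl⟩
    ext e
    simp only [mem_sdiff, mem_union]
    have := @hw' e
    tauto
  · intro h
    refine ⟨w ∩ E, inter_subset_right, ?_⟩
    rw [← h]
    ext e
    simp only [mem_sdiff, mem_union, mem_inter]
    tauto

lemma sum_Ws (E w₀ : Es) (F : Es → ℝ) :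
    ∑ w ∈ Ws E w₀, F w = ∑ w ∈ E.powerset, F (w ∪ w₀ \ E) := by
  rw [Ws, sum_image]
  intro w hw w' hw' h
  simp only [coe_powerset, Set.mem_preimage, Set.mem_powerset_iff, coe_subset] at hw hw'
  ext e
  have h1 : e ∈ w ∪ w₀ \ E ↔ e ∈ w' ∪ w₀ \ E := by
    have h' : w ∪ w₀ \ E = w' ∪ w₀ \ E := h
    rw [h']
  simp only [mem_sdiff, mem_union] at h1
  have h2 := @hw e
  have h3 := @hw' e
  tauto

lemma mem_Om {u : UC} : u ∈ Om q S ↔ (∀ v ∉ S.L, u.a v = S.x.a v) ∧ (∀ v ∈ S.L, u.a v ∈ site q) ∧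
    u.w \ S.E = S.x.w \ S.E ∧ u.b \ S.E = S.x.b \ S.E := by
  simp only [Om, mem_image, mem_product, mem_As, mem_Ws]
  constructor
  · rintro ⟨⟨a, w, b⟩, ⟨⟨h1, h2⟩, h3, h4⟩, rfl⟩
    exact ⟨h1, h2, h3, h4⟩
  · rintro ⟨h1, h2, h3, h4⟩
    exact ⟨⟨u.a, u.w, u.b⟩, ⟨⟨h1, h2⟩, h3, h4⟩, rfl⟩

lemma Z_triple (β : ℝ) (q : ℕ) (S : Sys) (f : UC → ℝ) : Z β q S f =
    ∑ a ∈ As q S.L S.x.a, ∑ w ∈ Ws S.E S.x.w, ∑ b ∈ Ws S.E S.x.b,
      wt β S ⟨a, w, b⟩ * f ⟨a, w, b⟩ := by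
  rw [Z, Om, sum_image]
  · rw [sum_product]
    refine sum_congr rfl fun a _ => ?_
    rw [sum_product]
  · rintro ⟨a, w, b⟩ _ ⟨a', w', b'⟩ _ h
    simp only [UC.mk.injEq] at h
    obtain ⟨rfl, rfl, rfl⟩ := h
    rfl

lemma a01_Om (hS : A01 S.x.a) {u : UC} (hu : u ∈ Om q S) : A01 u.a := by
  intro v
  obtain ⟨h1, h2, -⟩ := mem_Om.1 hu
  by_cases hv : v ∈ S.L
  · exact site_01 (h2 v hv)
  · rw [h1 v hv]
    exact hS v

lemma pr_nonneg {c : V → ℝ} (hc : ∀ v, 0 ≤ c v) (e : Sym2 V) : 0 ≤ pr c e := by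
  induction e using Sym2.ind with
  | _ x y => exact mul_nonneg (hc x) (hc y)

lemma pr_le_one {c : V → ℝ} (hc : ∀ v, 0 ≤ c v ∧ c v ≤ 1) (e : Sym2 V) : pr c e ≤ 1 := by
  induction e using Sym2.ind with
  | _ x y => exact mul_le_one₀ (hc x).2 (hc y).1 (hc y).2

lemma ew_nonneg {J : ℝ} (hJ : 0 ≤ J) (p : Prop) : 0 ≤ ew J p := by
  unfold ew
  split_ifs
  · exact sub_nonneg.2 (exp_le_exp.2 (by linarith))
  · exact (exp_pos _).le

lemma wr_nonneg (hβ : 0 ≤ β) (E : Es) {c : V → ℝ} (hc : ∀ v, 0 ≤ c v) (w : Es) :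
    0 ≤ wr β E c w := by
  exact prod_nonneg fun e _ => ew_nonneg (mul_nonneg hβ (pr_nonneg hc e)) _

lemma cnt_nonneg (T : Finset Fld) (w : Es) : 0 ≤ cnt T w := by
  exact Nat.cast_nonneg _

lemma wt_nonneg (hβ : 0 ≤ β) (S : Sys) {u : UC} (hu : A01 u.a) : 0 ≤ wt β S u := by
  exact mul_nonneg (mul_nonneg (wr_nonneg hβ _ (fun v => (hu v).1.1) _) (cnt_nonneg _ _))
    (mul_nonneg (wr_nonneg hβ _ (fun v => (hu v).2.1) _) (cnt_nonneg _ _))

lemma aa2_cnt {T : Finset Fld} {w : Es} (h : cnt T w ≠ 0) : AT T w := by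
  have h1 : #(T.filter fun σ => cp σ w) ≠ 0 := by
    intro h0
    apply h
    rw [cnt, h0, Nat.cast_zero]
  obtain ⟨σ, hσ⟩ := card_ne_zero.1 h1
  exact ⟨σ, (mem_filter.1 hσ).1, (mem_filter.1 hσ).2⟩

lemma aa2_wr {E w : Es} {c : V → ℝ} (h : wr β E c w ≠ 0) :
    ∀ e ∈ E, e ∈ w → ∀ v ∈ e, c v ≠ 0 := by
  intro e he hw v hv h0
  have h1 := prod_ne_zero_iff.1 h e he
  apply h1
  have h2 : pr c e = 0 := by
    induction e using Sym2.ind with
    | _ x y =>
      rcases Sym2.mem_iff.1 hv with rfl | rfl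
      · show c v * c y = 0
        rw [h0, zero_mul]
      · show c x * c v = 0
        rw [h0, mul_zero]
  rw [ew, if_pos hw, h2]
  simp

/-- a state of nonzero weight has compatible fields, and no open edge at a site of modulus zero -/
lemma wt_ne {u : UC} (h : wt β S u ≠ 0) : AT S.T (u.w ∩ S.E) ∧ AT S.U (u.b ∩ S.E) ∧
    (∀ e ∈ S.E, e ∈ u.w → ∀ v ∈ e, (u.a v).1 ≠ 0) ∧
    ∀ e ∈ S.E, e ∈ u.b → ∀ v ∈ e, (u.a v).2 ≠ 0 := by
  rw [wt] at h
  obtain ⟨h1, h2⟩ := mul_ne_zero_iff.1 h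
  obtain ⟨h11, h12⟩ := mul_ne_zero_iff.1 h1
  obtain ⟨h21, h22⟩ := mul_ne_zero_iff.1 h2
  exact ⟨aa2_cnt h12, aa2_cnt h22, aa2_wr h11, aa2_wr h21⟩

end

end Pool.Agent.XYU

end

section

open Finset Real

namespace Pool.Agent.XYU

open Classical

noncomputable section

variable {β : ℝ} {q : ℕ} {S : Sys} {f g : UC → ℝ}

lemma Z_add (f g : UC → ℝ) : Z β q S (fun u => f u + g u) = Z β q S f + Z β q S g := by
  simp only [Z, mul_add, sum_add_distrib]

lemma Z_sub (f g : UC → ℝ) : Z β q S (fun u => f u - g u) = Z β q S f - Z β q S g := by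
  simp only [Z, mul_sub, sum_sub_distrib]

lemma Z_mul (c : ℝ) (f : UC → ℝ) : Z β q S (fun u => c * f u) = c * Z β q S f := by
  simp only [Z, mul_sum]
  exact sum_congr rfl fun u _ => by ring

lemma Z_const (c : ℝ) : Z β q S (fun _ => c) = c * Z1 β q S := by
  simp only [Z1, Z, mul_sum]
  exact sum_congr rfl fun u _ => by ring

lemma Z_sum {ι : Type*} (s : Finset ι) (F : ι → UC → ℝ) :
    Z β q S (fun u => ∑ i ∈ s, F i u) = ∑ i ∈ s, Z β q S (F i) := by
  simp only [Z, mul_sum]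
  exact sum_comm

lemma Z_congr (h : ∀ u ∈ Om q S, wt β S u ≠ 0 → f u = g u) : Z β q S f = Z β q S g := by
  unfold Z
  refine sum_congr rfl fun u hu => ?_
  by_cases h0 : wt β S u = 0
  · simp [h0]
  · rw [h u hu h0]

lemma Z_mono (hβ : 0 ≤ β) (hS : A01 S.x.a) (h : ∀ u ∈ Om q S, wt β S u ≠ 0 → f u ≤ g u) :
    Z β q S f ≤ Z β q S g := by
  unfold Z
  refine sum_le_sum fun u hu => ?_
  by_cases h0 : wt β S u = 0
  · simp [h0]
  · exact mul_le_mul_of_nonneg_left (h u hu h0) (wt_nonneg hβ S (a01_Om hS hu))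

lemma Z_nonneg (hβ : 0 ≤ β) (hS : A01 S.x.a) (h : ∀ u ∈ Om q S, 0 ≤ f u) : 0 ≤ Z β q S f :=
  sum_nonneg fun u hu => mul_nonneg (wt_nonneg hβ S (a01_Om hS hu)) (h u hu)

lemma Z1_nonneg (hβ : 0 ≤ β) (hS : A01 S.x.a) : 0 ≤ Z1 β q S :=
  Z_nonneg hβ hS fun _ _ => zero_le_one

lemma aa3_wr_pos (β : ℝ) (E : Es) (c : V → ℝ) (w₀ : Es) : 0 < wr β E c (w₀ \ E) := by
  unfold wr
  refine prod_pos fun e he => ?_
  have hn : ¬ e ∈ w₀ \ E := fun h => (mem_sdiff.1 h).2 he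
  unfold ew
  rw [if_neg hn]
  exact exp_pos _

lemma aa3_cnt_pos {T : Finset Fld} (hT : T.Nonempty) (E w₀ : Es) : 0 < cnt T (w₀ \ E ∩ E) := by
  unfold cnt
  rw [sdiff_inter_self]
  have hf : (T.filter fun σ => cp σ ∅) = T :=
    filter_true_of_mem fun σ _ x y h => absurd h (notMem_empty _)
  rw [hf]
  exact_mod_cast card_pos.2 hT

/-- take the state with all free edges closed -/
lemma Z1_pos (hβ : 0 ≤ β) (hq : 0 < q) (hS : A01 S.x.a) (hT : S.T.Nonempty) (hU : S.U.Nonempty) :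
    0 < Z1 β q S := by
  let u₀ : UC := ⟨fun v => if v ∈ S.L then st q ⟨0, hq⟩ else S.x.a v, S.x.w \ S.E, S.x.b \ S.E⟩
  have hu : u₀ ∈ Om q S := by
    refine mem_Om.2 ⟨fun v hv => if_neg hv, fun v hv => ?_, ?_, ?_⟩
    · have : u₀.a v = st q ⟨0, hq⟩ := if_pos hv
      rw [this]
      exact mem_image_of_mem _ (mem_univ _)
    · exact sdiff_idem
    · exact sdiff_idem
  unfold Z1 Z
  refine sum_pos' (fun u hu' => mul_nonneg (wt_nonneg hβ S (a01_Om hS hu')) zero_le_one)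
    ⟨u₀, hu, ?_⟩
  rw [mul_one]
  exact mul_pos (mul_pos (aa3_wr_pos _ _ _ _) (aa3_cnt_pos hT _ _))
    (mul_pos (aa3_wr_pos _ _ _ _) (aa3_cnt_pos hU _ _))

lemma Grp.pos (hS : Grp S) (hβ : 0 ≤ β) (hq : 0 < q) : 0 < Z1 β q S :=
  Z1_pos hβ hq hS.a01 ⟨0, hS.T0.1⟩ ⟨0, hS.U0.1⟩

/-- only the frozen part of `x` matters -/
lemma Z_congr_x {S S' : Sys} (hL : S'.L = S.L) (hE : S'.E = S.E) (hT : S'.T = S.T)
    (hU : S'.U = S.U) (ha : ∀ v ∉ S.L, S'.x.a v = S.x.a v) (hw : S'.x.w \ S.E = S.x.w \ S.E)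
    (hb : S'.x.b \ S.E = S.x.b \ S.E) (f : UC → ℝ) : Z β q S' f = Z β q S f := by
  have hO : Om q S' = Om q S := by
    ext u
    rw [mem_Om, mem_Om, hL, hE, hw, hb]
    constructor
    · rintro ⟨h1, h2⟩
      exact ⟨fun v hv => (h1 v hv).trans (ha v hv), h2⟩
    · rintro ⟨h1, h2⟩
      exact ⟨fun v hv => (h1 v hv).trans (ha v hv).symm, h2⟩
  unfold Z
  rw [hO]
  refine sum_congr rfl fun u _ => ?_
  unfold wt
  rw [hE, hT, hU]

end

end Pool.Agent.XYU

end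

section

open Finset Real

namespace Pool.Agent.XYU

open Classical

noncomputable section

variable {β : ℝ} {q : ℕ} {S : Sys} {f g : UC → ℝ}

lemma aa_two (t : ZMod 2) : t = 0 ∨ t = 1 := by
  revert t
  decide

lemma aa_add_self (σ : Fld) : σ + σ = 0 := funext fun v => CharTwo.add_self_eq_zero (σ v)

lemma mem_Flip {A : Finset V} {σ : Fld} : σ ∈ Flip A ↔ ∀ v ∉ A, σ v = 0 := by
  rw [Flip, mem_image]
  constructor
  · rintro ⟨B, hB, rfl⟩ v hv
    exact if_neg fun h => hv (mem_powerset.1 hB h)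
  · intro h
    refine ⟨A.filter fun v => σ v = 1, mem_powerset.2 (filter_subset _ _), funext fun v => ?_⟩
    split_ifs with h1
    · exact (mem_filter.1 h1).2.symm
    · by_cases h2 : v ∈ A
      · exact ((aa_two (σ v)).resolve_right fun h3 => h1 (mem_filter.2 ⟨h2, h3⟩)).symm
      · exact (h v h2).symm

lemma mem_Off {L : Finset V} {σ₀ σ : Fld} : σ ∈ Off L σ₀ ↔ ∀ v ∉ L, σ v = σ₀ v := by
  rw [Off, mem_image]
  constructor
  · rintro ⟨τ, hτ, rfl⟩ v hv
    rw [Pi.add_apply, mem_Flip.1 hτ v hv, zero_add]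
  · intro h
    refine ⟨σ + σ₀, mem_Flip.2 fun v hv => ?_, by rw [add_assoc, aa_add_self, add_zero]⟩
    rw [Pi.add_apply, h v hv, CharTwo.add_self_eq_zero]

lemma mem_ends {E : Es} {v : V} : v ∈ ends E ↔ ∃ e ∈ E, v ∈ e := by
  simp only [ends, mem_biUnion, Sym2.mem_toFinset]

lemma sg_Flip (A : Finset V) : SG (Flip A) := ⟨mem_Flip.2 fun _ _ => rfl, fun σ hσ τ hτ => mem_Flip.2 fun v hv => by
  rw [Pi.add_apply, mem_Flip.1 hσ v hv, mem_Flip.1 hτ v hv, add_zero]⟩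

lemma fl_Flip {L A : Finset V} (h : L ⊆ A) : Fl L (Flip A) := fun σ hσ v hv => mem_Flip.2 fun x hx => by
  rw [Pi.add_apply, mem_Flip.1 hσ x hx, Pi.single_eq_of_ne (by rintro rfl; exact hx (h hv)), add_zero]

lemma fl_Off (L : Finset V) (σ₀ : Fld) : Fl L (Off L σ₀) := fun σ hσ v hv => mem_Off.2 fun x hx => by
  rw [Pi.add_apply, mem_Off.1 hσ x hx, Pi.single_eq_of_ne (by rintro rfl; exact hx hv), add_zero]

lemma cos_Off (L : Finset V) (σ₀ : Fld) : Cos (Flip L) (Off L σ₀) := fun τ hτ σ => by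
  rw [mem_Off, mem_Flip]
  refine forall₂_congr fun v hv => ?_
  rw [Pi.add_apply, mem_Off.1 hτ v hv, CharTwo.add_eq_zero]

/-- closure under single flips gives closure under all fields supported in `L` -/
lemma Fl.add {L : Finset V} {T : Finset Fld} (h : Fl L T) {σ τ : Fld} (hσ : σ ∈ T)
    (hτ : ∀ v ∉ L, τ v = 0) : σ + τ ∈ T := by
  have key : ∀ B : Finset V, B ⊆ L → ∀ τ : Fld, (∀ v ∉ B, τ v = 0) → σ + τ ∈ T := by
    intro B
    induction B using Finset.induction_on with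
    | empty =>
      intro _ τ h0
      obtain rfl : τ = 0 := funext fun v => h0 v (notMem_empty v)
      rwa [add_zero]
    | insert x B _ ih =>
      intro hB τ h0
      have hB' := (subset_insert x B).trans hB
      rcases aa_two (τ x) with h1 | h1
      · refine ih hB' τ fun v hv => ?_
        by_cases h2 : v = x
        · rwa [h2]
        · exact h0 v fun h3 => (mem_insert.1 h3).elim h2 hv
      · have h2 := h _ (ih hB' (τ + Pi.single x 1) fun v hv => by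
          by_cases h2 : v = x
          · rw [h2, Pi.add_apply, h1, Pi.single_eq_same, CharTwo.add_self_eq_zero]
          · rw [Pi.add_apply, Pi.single_eq_of_ne h2, add_zero]
            exact h0 v fun h3 => (mem_insert.1 h3).elim h2 hv) x (hB (mem_insert_self x B))
        rwa [add_assoc, add_assoc, aa_add_self, add_zero] at h2
  exact key L Subset.rfl τ hτ

lemma grp_Smax (L : Finset V) (E : Es) (X : Finset V) : Grp (Smax L E X) := by
  refine ⟨fun v => ?_, sg_Flip _, sg_Flip _, fl_Flip Subset.rfl, fl_Flip subset_union_left⟩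
  simp only [Smax]
  split_ifs <;> simp

lemma cp_mono {σ : Fld} {w w' : Es} (h : w ⊆ w') (hσ : cp σ w') : cp σ w := fun x y h1 => hσ x y (h h1)

lemma cp_union {σ : Fld} {w w' : Es} : cp σ (w ∪ w') ↔ cp σ w ∧ cp σ w' := ⟨fun h => ⟨cp_mono subset_union_left h, cp_mono subset_union_right h⟩,
    fun h x y h1 => (mem_union.1 h1).elim (h.1 x y) (h.2 x y)⟩

lemma cp_add {σ τ : Fld} {w : Es} (hσ : cp σ w) (hτ : cp τ w) : cp (σ + τ) w := fun x y h => by
  rw [Pi.add_apply, Pi.add_apply, hσ x y h, hτ x y h]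

lemma SG.filter {T : Finset Fld} (hT : SG T) (w : Es) : SG (T.filter fun σ => cp σ w) := ⟨mem_filter.2 ⟨hT.1, fun _ _ _ => rfl⟩, fun σ hσ τ hτ => mem_filter.2
    ⟨hT.2 σ (mem_filter.1 hσ).1 τ (mem_filter.1 hτ).1, cp_add (mem_filter.1 hσ).2 (mem_filter.1 hτ).2⟩⟩

lemma Cos.filter {T₀ T : Finset Fld} (hT : Cos T₀ T) (w : Es) :
    Cos (T₀.filter fun σ => cp σ w) (T.filter fun σ => cp σ w) := fun σ₀ h0 σ => by
  rw [mem_filter] at h0
  rw [mem_filter, mem_filter, hT σ₀ h0.1 σ]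
  refine and_congr_right fun _ => ⟨fun h => cp_add h h0.2, fun h => ?_⟩
  have h1 := cp_add h h0.2
  rwa [add_assoc, aa_add_self, add_zero] at h1

end

end Pool.Agent.XYU

end

section

open Finset Real

namespace Pool.Agent.XYU

open Classical

noncomputable section

/-! Counting sign fields. In characteristic two `σ + σ = 0`. `card_sg`: the map
`(x, y) ↦ x + y` from `A ×ˢ B` to `D` has fibres of size at most `#(A ∩ B)`.
`cnt_idx`: let `r σ` be `σ` cut to `ends E` (zero elsewhere); for a group `T` and `w ⊆ E`,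
`cnt T w = #(T ∩ ker r) * cnt (T.image r) w`; and for groups `A ⊆ B ⊆ G + A`,
`cnt A w ≤ cnt B w ≤ #G * cnt A w` (each coset `g + A` meets the compatible fields in the empty
set or in a coset of the compatible part of `A`).
`es`: `exp (J * sg) = exp (-J) + (exp J - exp (-J)) * [signs agree]`, `Finset.prod_add`.
`gks`: `exp (K ε) = cosh K + ε sinh K` for `ε = ±1`; expand with `prod_add`; for a set of edges `B`
the map `σ ↦ ∏ e ∈ B, sg σ e` is a character of the group `T`, so its sum is `0` or `#T`; compare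
term by term with `cosh K' ≤ cosh K`, `|sinh K'| ≤ sinh K`.
`h4` (duplicate system): the exchange on `B`, `(σ₁, σ₂) ↦ (B.piecewise σ₂ σ₁, B.piecewise σ₁ σ₂)`,
is injective, so the left side is at most the sum over `(σ₃, σ₄) ∈ T₃ ×ˢ T₄` of the exponential of
the exchanged energy. Put `σ₄ = σ₃ + ρ`, `ρ ∈ T₄`. For fixed `ρ`, both energies have the form
`∑ e, K e * sg σ₃ e`: with `r v = chi (ρ v)`, right side `K = β (c₃ c₃ + r r c₄ c₄)`; left side the
same when both ends are on the same side of `B`, and `K' = β (c₃ x c₄ y r y + c₄ x r x c₃ y)`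
otherwise. `K - K' = β (c₃ x - r x c₄ x)(c₃ y - r y c₄ y) ≥ 0`,
`K + K' = β (c₃ x + r x c₄ x)(c₃ y + r y c₄ y) ≥ 0`. Conclude with `gks`. -/

variable {β : ℝ}

lemma ab1_two (σ : Fld) : σ + σ = 0 := funext fun _ => CharTwo.add_self_eq_zero _

lemma ab1_can (σ τ : Fld) : σ + τ + τ = σ := by rw [add_assoc, ab1_two, add_zero]

lemma card_sg {A B D : Finset Fld} (hA : SG A) (hB : SG B) (h : ∀ x ∈ A, ∀ y ∈ B, x + y ∈ D) :
    #A * #B ≤ #(A ∩ B) * #D := by
  rw [← card_product]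
  refine card_le_mul_card_image_of_maps_to (f := fun p => p.1 + p.2)
    (fun p hp => h _ (mem_product.1 hp).1 _ (mem_product.1 hp).2) _ fun d _ => ?_
  rcases ((A ×ˢ B).filter fun p => p.1 + p.2 = d).eq_empty_or_nonempty with e | ⟨p₀, h₀⟩
  · rw [e]
    exact Nat.zero_le _
  obtain ⟨h₀, e₀⟩ := mem_filter.1 h₀
  refine card_le_card_of_injOn (fun p => p.1 + p₀.1) (fun p hp => ?_) fun p hp p' hp' e => ?_
  · obtain ⟨hp, e⟩ := mem_filter.1 (mem_coe.1 hp)
    refine mem_coe.2 (mem_inter.2 ⟨hA.2 _ (mem_product.1 hp).1 _ (mem_product.1 h₀).1, ?_⟩)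
    have : p.1 + p₀.1 = p.2 + p₀.2 := by
      rw [← ab1_can p.1 p.2, e, ← e₀, add_right_comm, add_right_comm p₀.1, ab1_two, zero_add,
        add_comm]
    change p.1 + p₀.1 ∈ B
    rw [this]
    exact hB.2 _ (mem_product.1 hp).2 _ (mem_product.1 h₀).2
  · have e1 : p.1 = p'.1 := add_right_cancel e
    have e2 := (mem_filter.1 (mem_coe.1 hp)).2.trans (mem_filter.1 (mem_coe.1 hp')).2.symm
    rw [e1] at e2
    exact Prod.ext e1 (add_left_cancel e2)

lemma cnt_four {T T' : Finset Fld} (hT : SG T) (hT' : SG T') (h : T' ⊆ T) (w w' : Es) :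
    cnt T w * cnt T' w' ≤ cnt T (w ∩ w') * cnt T' (w ∪ w') := by
  have a := card_sg (D := T.filter fun σ => cp σ (w ∩ w')) (hT.filter w) (hT'.filter w')
    fun x hx y hy => mem_filter.2 ⟨hT.2 _ (mem_filter.1 hx).1 _ (h (mem_filter.1 hy).1),
      cp_add (cp_mono inter_subset_left (mem_filter.1 hx).2)
        (cp_mono inter_subset_right (mem_filter.1 hy).2)⟩
  have b : #((T.filter fun σ => cp σ w) ∩ T'.filter fun σ => cp σ w') ≤
      #(T'.filter fun σ => cp σ (w ∪ w')) := card_le_card fun σ hσ =>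
    mem_filter.2 ⟨(mem_filter.1 (mem_inter.1 hσ).2).1,
      cp_union.2 ⟨(mem_filter.1 (mem_inter.1 hσ).1).2, (mem_filter.1 (mem_inter.1 hσ).2).2⟩⟩
  rw [cnt, cnt, cnt, cnt, ← Nat.cast_mul, ← Nat.cast_mul, Nat.cast_le, mul_comm #(_ : Finset Fld)
    #(T'.filter fun σ => cp σ (w ∪ w'))]
  exact a.trans (Nat.mul_le_mul_right _ b)

lemma cnt_cos {T₀ T : Finset Fld} (h : Cos T₀ T) (w : Es) :
    cnt T w = ind (AT T w) * cnt T₀ w := by
  by_cases hT : AT T w
  · rw [ind_pos hT, one_mul, cnt, cnt]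
    obtain ⟨σ₀, h0, h1⟩ := hT
    have a := h.filter w σ₀ (mem_filter.2 ⟨h0, h1⟩)
    exact congrArg _ (card_nbij' (· + σ₀) (· + σ₀) (fun σ hσ => (a σ).1 hσ)
      (fun σ hσ => (a _).2 (by rw [ab1_can]; exact hσ)) (fun σ _ => ab1_can _ _)
      fun σ _ => ab1_can _ _)
  · rw [ind_neg hT, zero_mul, cnt, filter_eq_empty_iff.2 fun σ h0 h1 => hT ⟨σ, h0, h1⟩,
      card_empty, Nat.cast_zero]

lemma cnt_split {ι : Type*} (T : Finset Fld) (r : Fld → ι) (w : Es) :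
    cnt T w = ∑ l ∈ T.image r, cnt (T.filter fun σ => r σ = l) w := by
  simp only [cnt, ← Nat.cast_sum]
  rw [card_eq_sum_card_fiberwise (f := r) (t := T.image r) fun σ hσ =>
    mem_coe.2 (mem_image_of_mem r (mem_filter.1 (mem_coe.1 hσ)).1)]
  simp only [filter_comm _ (fun σ => cp σ w)]

end

end Pool.Agent.XYU

end

section

open Finset Real

namespace Pool.Agent.XYU

open Classical

noncomputable section

variable {β : ℝ}

/-- the field cut to `A` -/
def ab2_r (A : Finset V) (σ : Fld) : Fld := fun v => if v ∈ A then σ v else 0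

lemma ab2_self (σ : Fld) : σ + σ = 0 := by
  funext v
  exact CharTwo.add_self_eq_zero (σ v)

lemma ab2_add (A : Finset V) (σ τ : Fld) : ab2_r A (σ + τ) = ab2_r A σ + ab2_r A τ := by
  funext v
  simp only [ab2_r, Pi.add_apply]
  split_ifs <;> simp

lemma ab2_zero (A : Finset V) : ab2_r A 0 = 0 := by
  funext v
  simp [ab2_r]

lemma ab2_eq {A : Finset V} {σ τ : Fld} (h : ∀ v ∈ A, σ v = τ v) : ab2_r A σ = ab2_r A τ := by
  funext v
  simp only [ab2_r]
  split_ifs with hv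
  · exact h v hv
  · rfl

lemma ab2_ends {E : Es} {v : V} : v ∈ ends E ↔ ∃ e ∈ E, v ∈ e := by
  simp [ends]

lemma ab2_cp {E w : Es} {A : Finset V} (hA : ends E ⊆ A) (hw : w ⊆ E) (σ : Fld) :
    cp (ab2_r A σ) w ↔ cp σ w := by
  refine forall_congr' fun x => forall_congr' fun y => imp_congr_right fun h => ?_
  have hx : x ∈ A := hA (ab2_ends.2 ⟨_, hw h, Sym2.mem_mk_left x y⟩)
  have hy : y ∈ A := hA (ab2_ends.2 ⟨_, hw h, Sym2.mem_mk_right x y⟩)
  simp only [ab2_r, if_pos hx, if_pos hy]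

lemma ab2_cp_add {w : Es} {σ τ : Fld} (h : cp σ w) (h' : cp τ w) : cp (σ + τ) w := by
  intro x y hxy
  simp only [Pi.add_apply, h x y hxy, h' x y hxy]

lemma ab2_sg {T : Finset Fld} (h : SG T) (A : Finset V) : SG (T.image (ab2_r A)) := by
  refine ⟨mem_image.2 ⟨0, h.1, ab2_zero A⟩, fun σ hσ τ hτ => ?_⟩
  obtain ⟨σ', hσ', rfl⟩ := mem_image.1 hσ
  obtain ⟨τ', hτ', rfl⟩ := mem_image.1 hτ
  exact mem_image.2 ⟨σ' + τ', h.2 _ hσ' _ hτ', ab2_add A σ' τ'⟩

lemma ab2_pos {T : Finset Fld} (h : SG T) (A : Finset V) :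
    (0 : ℝ) < (#(T.filter fun σ => ab2_r A σ = 0) : ℕ) := by
  have : 0 < #(T.filter fun σ => ab2_r A σ = 0) :=
    card_pos.2 ⟨0, mem_filter.2 ⟨h.1, ab2_zero A⟩⟩
  exact_mod_cast this

lemma ab2_cut {E w : Es} {A : Finset V} {T : Finset Fld} (h : SG T) (hA : ends E ⊆ A)
    (hw : w ⊆ E) :
    cnt T w = (#(T.filter fun σ => ab2_r A σ = 0) : ℕ) * cnt (T.image (ab2_r A)) w := by
  unfold cnt
  rw [← Nat.cast_mul]
  congr 1
  rw [card_eq_sum_card_fiberwise (f := ab2_r A) (s := T.filter fun σ => cp σ w)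
    (t := (T.image (ab2_r A)).filter fun σ => cp σ w), mul_comm, ← smul_eq_mul, ← sum_const]
  · refine sum_congr rfl fun ρ hρ => ?_
    obtain ⟨hρ, hc⟩ := mem_filter.1 hρ
    obtain ⟨σ₀, h₀, rfl⟩ := mem_image.1 hρ
    refine card_bij' (fun σ _ => σ + σ₀) (fun σ _ => σ + σ₀) ?_ ?_ ?_ ?_
    · intro σ hσ
      obtain ⟨hσ, he⟩ := mem_filter.1 hσ
      refine mem_filter.2 ⟨h.2 _ (mem_filter.1 hσ).1 _ h₀, ?_⟩
      rw [ab2_add, he, ab2_self]
    · intro σ hσ
      obtain ⟨hσ, he⟩ := mem_filter.1 hσ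
      have e : ab2_r A (σ + σ₀) = ab2_r A σ₀ := by rw [ab2_add, he, zero_add]
      refine mem_filter.2 ⟨mem_filter.2 ⟨h.2 _ hσ _ h₀, ?_⟩, e⟩
      rw [← ab2_cp hA hw, e]
      exact hc
    · intro σ _
      rw [add_assoc, ab2_self, add_zero]
    · intro σ _
      rw [add_assoc, ab2_self, add_zero]
  · intro σ hσ
    obtain ⟨hσ, hc⟩ := mem_filter.1 (mem_coe.1 hσ)
    exact mem_coe.2 (mem_filter.2 ⟨mem_image_of_mem _ hσ, (ab2_cp hA hw σ).2 hc⟩)

lemma ab2_mono {A B : Finset Fld} (h : A ⊆ B) (w : Es) : cnt A w ≤ cnt B w := by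
  unfold cnt
  exact_mod_cast card_le_card (filter_subset_filter _ h)

lemma ab2_index {ι : Type} {A B : Finset Fld} {G : Finset ι} (g : ι → Fld) (hA : SG A)
    (h : ∀ σ ∈ B, ∃ i ∈ G, σ + g i ∈ A) (w : Es) : cnt B w ≤ #G * cnt A w := by
  unfold cnt
  rw [← Nat.cast_mul, Nat.cast_le]
  have h1 : (B.filter fun σ => cp σ w) ⊆
      G.biUnion fun i => (B.filter fun σ => cp σ w).filter fun σ => σ + g i ∈ A := by
    intro σ hσ
    obtain ⟨i, hi, hh⟩ := h σ (mem_filter.1 hσ).1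
    exact mem_biUnion.2 ⟨i, hi, mem_filter.2 ⟨hσ, hh⟩⟩
  refine (card_le_card h1).trans (card_biUnion_le_card_mul _ _ _ fun i _ => ?_)
  rcases ((B.filter fun σ => cp σ w).filter fun σ => σ + g i ∈ A).eq_empty_or_nonempty with
    he | ⟨σ₀, h₀⟩
  · rw [he]
    exact Nat.zero_le _
  · obtain ⟨h₀, h₀'⟩ := mem_filter.1 h₀
    refine card_le_card_of_injOn (fun σ => σ + σ₀) (fun σ hσ => ?_) fun σ _ τ _ e =>
      add_right_cancel e
    obtain ⟨hσ, hσ'⟩ := mem_filter.1 (mem_coe.1 hσ)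
    refine mem_coe.2 (mem_filter.2 ⟨?_, ab2_cp_add (mem_filter.1 hσ).2 (mem_filter.1 h₀).2⟩)
    have e : σ + σ₀ = σ + g i + (σ₀ + g i) := by
      rw [add_add_add_comm, ab2_self, add_zero]
    show σ + σ₀ ∈ A
    rw [e]
    exact hA.2 _ hσ' _ h₀'

lemma ab2_flip {L : Finset V} {T : Finset Fld} (hf : Fl L T) {σ : Fld} (hσ : σ ∈ T) (τ : Fld)
    (B : Finset V) (hB : B ⊆ L) : B.piecewise τ σ ∈ T := by
  induction B using Finset.induction_on with
  | empty => simpa using hσ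
  | insert v B hv ih =>
    have h1 := ih (subset_trans (subset_insert _ _) hB)
    have hL : v ∈ L := hB (mem_insert_self _ _)
    by_cases he : τ v = σ v
    · have : (insert v B).piecewise τ σ = B.piecewise τ σ := by
        funext x
        by_cases hx : x = v
        · subst hx
          simp [piecewise, hv, he]
        · simp [piecewise, hx]
      rw [this]
      exact h1
    · have : (insert v B).piecewise τ σ = B.piecewise τ σ + Pi.single v 1 := by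
        funext x
        by_cases hx : x = v
        · subst hx
          have : ∀ a b : ZMod 2, ¬ a = b → a = b + 1 := by decide
          simp [piecewise, hv, this _ _ he]
        · simp [piecewise, hx]
      rw [this]
      exact hf _ h1 v hL

lemma ab2_fl {L A : Finset V} {T : Finset Fld} (hf : Fl L T) (hA : L ⊆ A) :
    Fl L (T.image (ab2_r A)) := by
  intro ρ hρ v hv
  obtain ⟨σ, hσ, rfl⟩ := mem_image.1 hρ
  refine mem_image.2 ⟨_, hf σ hσ v hv, ?_⟩
  rw [ab2_add]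
  congr 1
  funext x
  by_cases hx : x = v
  · subst hx
    simp [ab2_r, hA hv]
  · simp [ab2_r, hx]

lemma cnt_idx {E : Es} {T₁ T₂ G : Finset Fld} (h₁ : SG T₁) (h₂ : SG T₂) (hs : Sub E T₁ T₂)
    (hG : ∀ σ ∈ T₂, ∃ g ∈ G, ∃ σ₁ ∈ T₁, ∀ e ∈ E, ∀ v ∈ e, σ v = g v + σ₁ v) :
    ∃ κ : ℝ, 0 < κ ∧ ∀ w ⊆ E, κ * cnt T₁ w ≤ cnt T₂ w ∧ cnt T₂ w ≤ κ * #G * cnt T₁ w := by
  have k₁ := ab2_pos h₁ (ends E)
  have k₂ := ab2_pos h₂ (ends E)
  refine ⟨_, div_pos k₂ k₁, fun w hw => ?_⟩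
  have hsub : T₁.image (ab2_r (ends E)) ⊆ T₂.image (ab2_r (ends E)) := by
    intro ρ hρ
    obtain ⟨σ', hσ', rfl⟩ := mem_image.1 hρ
    obtain ⟨σ, hσ, he⟩ := hs σ' hσ'
    refine mem_image.2 ⟨σ, hσ, ab2_eq fun v hv => ?_⟩
    obtain ⟨e, he', hv⟩ := ab2_ends.1 hv
    exact he e he' v hv
  have a1 := ab2_mono hsub w
  have a2 : cnt (T₂.image (ab2_r (ends E))) w ≤ #G * cnt (T₁.image (ab2_r (ends E))) w := by
    refine ab2_index (ab2_r (ends E)) (ab2_sg h₁ _) (fun ρ hρ => ?_) w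
    obtain ⟨σ, hσ, rfl⟩ := mem_image.1 hρ
    obtain ⟨g, hg, σ₁, hσ₁, he⟩ := hG σ hσ
    refine ⟨g, hg, mem_image.2 ⟨σ₁, hσ₁, ?_⟩⟩
    rw [← ab2_add]
    refine ab2_eq fun v hv => ?_
    obtain ⟨e, he', hv⟩ := ab2_ends.1 hv
    rw [Pi.add_apply, he e he' v hv, add_right_comm, CharTwo.add_self_eq_zero, zero_add]
  rw [ab2_cut h₁ Subset.rfl hw, ab2_cut h₂ Subset.rfl hw]
  constructor
  · rw [← mul_assoc, div_mul_cancel₀ _ k₁.ne']
    exact mul_le_mul_of_nonneg_left a1 k₂.le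
  · refine (mul_le_mul_of_nonneg_left a2 k₂.le).trans (le_of_eq ?_)
    field_simp

/-- groups can be replaced by nested groups with proportional counts -/
lemma cnt_res {E : Es} {L : Finset V} {T T' : Finset Fld} (h : SG T) (h' : SG T') (hf : Fl L T)
    (hf' : Fl L T') (hs : Sub E T' T) : ∃ R R' : Finset Fld, SG R ∧ SG R' ∧ R' ⊆ R ∧ Fl L R ∧
      Fl L R' ∧ ∃ κ κ' : ℝ, 0 < κ ∧ 0 < κ' ∧
        ∀ w ⊆ E, cnt T w = κ * cnt R w ∧ cnt T' w = κ' * cnt R' w := by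
  refine ⟨T.image (ab2_r (ends E ∪ L)), T'.image (ab2_r (ends E ∪ L)), ab2_sg h _, ab2_sg h' _, ?_,
    ab2_fl hf subset_union_right, ab2_fl hf' subset_union_right, _, _, ab2_pos h (ends E ∪ L),
    ab2_pos h' (ends E ∪ L), fun w hw =>
      ⟨ab2_cut h subset_union_left hw, ab2_cut h' subset_union_left hw⟩⟩
  intro ρ hρ
  obtain ⟨σ', hσ', rfl⟩ := mem_image.1 hρ
  obtain ⟨σ, hσ, he⟩ := hs σ' hσ'
  refine mem_image.2 ⟨_, ab2_flip hf hσ σ' L Subset.rfl, ab2_eq fun v hv => ?_⟩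
  by_cases hL : v ∈ L
  · exact piecewise_eq_of_mem _ _ _ hL
  · rw [piecewise_eq_of_notMem _ _ _ hL]
    obtain ⟨e, he', hv⟩ := ab2_ends.1 ((mem_union.1 hv).resolve_right hL)
    exact he e he' v hv

end

end Pool.Agent.XYU

end

section

open Finset Real

namespace Pool.Agent.XYU

open Classical

noncomputable section

variable {β : ℝ}

lemma ab3_sg_cases (σ : Fld) (e : Sym2 V) : sg σ e = 1 ∨ sg σ e = -1 := by
  induction e using Sym2.ind with
  | _ x y =>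
    simp only [sg, Sym2.lift_mk]
    split_ifs <;> simp

lemma ab3_sg_add (σ τ : Fld) (e : Sym2 V) : sg (σ + τ) e = sg σ e * sg τ e := by
  induction e using Sym2.ind with
  | _ x y =>
    simp only [sg, Sym2.lift_mk, Pi.add_apply]
    have key : ∀ a b c d : ZMod 2, (a + b = c + d ↔ (a = c ↔ b = d)) := by decide
    by_cases h1 : σ x = σ y <;> by_cases h2 : τ x = τ y
    · rw [if_pos ((key _ _ _ _).2 (iff_of_true h1 h2)), if_pos h1, if_pos h2]; norm_num
    · rw [if_neg (fun h => h2 (((key _ _ _ _).1 h).1 h1)), if_pos h1, if_neg h2]; norm_num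
    · rw [if_neg (fun h => h1 (((key _ _ _ _).1 h).2 h2)), if_neg h1, if_pos h2]; norm_num
    · rw [if_pos ((key _ _ _ _).2 (iff_of_false h1 h2)), if_neg h1, if_neg h2]; norm_num

lemma ab3_cp_iff (σ : Fld) (w : Es) : cp σ w ↔ ∀ e ∈ w, sg σ e = 1 := by
  constructor
  · intro h e he
    induction e using Sym2.ind with
    | _ x y =>
      simp only [sg, Sym2.lift_mk]
      rw [if_pos (h x y he)]
  · intro h x y hxy
    have h1 := h _ hxy
    simp only [sg, Sym2.lift_mk] at h1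
    by_contra h2
    rw [if_neg h2] at h1
    norm_num at h1

lemma ab3_cnt (T : Finset Fld) (w : Es) : cnt T w = ∑ σ ∈ T, ∏ e ∈ w, ind (sg σ e = 1) := by
  unfold cnt
  rw [Finset.card_filter, Nat.cast_sum]
  refine Finset.sum_congr rfl fun σ _ => ?_
  rw [← ind_forall]
  by_cases h : cp σ w
  · rw [if_pos h, ind_pos ((ab3_cp_iff σ w).1 h), Nat.cast_one]
  · rw [if_neg h, ind_neg (fun h' => h ((ab3_cp_iff σ w).2 h')), Nat.cast_zero]

lemma ab3_wr (β : ℝ) (E : Es) (c : V → ℝ) (w₀ : Es) {w : Es} (hw : w ⊆ E) :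
    wr β E c (w ∪ w₀ \ E) =
      (∏ e ∈ w, (exp (β * pr c e) - exp (-(β * pr c e)))) * ∏ e ∈ E \ w, exp (-(β * pr c e)) := by
  unfold wr
  rw [← Finset.prod_sdiff hw, mul_comm]
  congr 1
  · refine Finset.prod_congr rfl fun e he => ?_
    unfold ew
    rw [if_pos (Finset.mem_union_left _ he)]
  · refine Finset.prod_congr rfl fun e he => ?_
    unfold ew
    rw [Finset.mem_sdiff] at he
    rw [if_neg]
    intro h
    rcases Finset.mem_union.1 h with h | h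
    · exact he.2 h
    · exact (Finset.mem_sdiff.1 h).2 he.1

lemma ab3_exp1 (J : ℝ) (σ : Fld) (e : Sym2 V) :
    exp (J * sg σ e) = (exp J - exp (-J)) * ind (sg σ e = 1) + exp (-J) := by
  rcases ab3_sg_cases σ e with h | h
  · rw [ind_pos h, h]; simp
  · rw [ind_neg (by rw [h]; norm_num), h]; simp

lemma ab3_exp2 (J : ℝ) (σ : Fld) (e : Sym2 V) :
    exp (J * sg σ e) = sinh J * sg σ e + cosh J := by
  rcases ab3_sg_cases σ e with h | h
  · rw [h, mul_one, mul_one, Real.sinh_add_cosh]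
  · rw [h, mul_neg_one, mul_neg_one, neg_add_eq_sub, Real.cosh_sub_sinh]

lemma ab3_char {T : Finset Fld} (hT : SG T) (B : Es) : 0 ≤ ∑ σ ∈ T, ∏ e ∈ B, sg σ e := by
  have hinv : ∀ σ τ : Fld, σ + τ + τ = σ := by
    intro σ τ
    funext v
    have key : ∀ a b : ZMod 2, a + b + b = a := by decide
    exact key _ _
  have h1 : ∀ τ ∈ T, (∑ σ ∈ T, ∏ e ∈ B, sg σ e) * ∏ e ∈ B, sg τ e = ∑ σ ∈ T, ∏ e ∈ B, sg σ e := by
    intro τ hτ
    rw [Finset.sum_mul]
    refine Finset.sum_nbij' (fun σ => σ + τ) (fun σ => σ + τ) (fun σ hσ => hT.2 σ hσ τ hτ)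
      (fun σ hσ => hT.2 σ hσ τ hτ) (fun σ _ => hinv σ τ) (fun σ _ => hinv σ τ) fun σ _ => ?_
    rw [← Finset.prod_mul_distrib]
    exact Finset.prod_congr rfl fun e _ => (ab3_sg_add σ τ e).symm
  have h2 : (∑ σ ∈ T, ∏ e ∈ B, sg σ e) * (∑ σ ∈ T, ∏ e ∈ B, sg σ e) =
      (#T : ℝ) * ∑ σ ∈ T, ∏ e ∈ B, sg σ e := by
    conv_lhs => rw [Finset.mul_sum]
    rw [Finset.sum_congr rfl h1, Finset.sum_const, nsmul_eq_mul]
  have h3 : (0 : ℝ) < #T := Nat.cast_pos.2 (Finset.card_pos.2 ⟨0, hT.1⟩)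
  exact nonneg_of_mul_nonneg_right (h2 ▸ mul_self_nonneg _) h3

lemma ab3_expand (T : Finset Fld) (E : Es) (K : Sym2 V → ℝ) :
    ∑ σ ∈ T, exp (∑ e ∈ E, K e * sg σ e) = ∑ B ∈ E.powerset,
      ((∏ e ∈ B, sinh (K e)) * ∏ e ∈ E \ B, cosh (K e)) * ∑ σ ∈ T, ∏ e ∈ B, sg σ e := by
  simp only [Finset.mul_sum]
  rw [Finset.sum_comm]
  refine Finset.sum_congr rfl fun σ _ => ?_
  rw [Real.exp_sum, Finset.prod_congr rfl fun e _ => ab3_exp2 (K e) σ e, Finset.prod_add]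
  refine Finset.sum_congr rfl fun B _ => ?_
  rw [Finset.prod_mul_distrib]
  ring

lemma es (β : ℝ) (E : Es) (T : Finset Fld) (c : V → ℝ) (w₀ : Es) :
    FK β E T c w₀ (fun _ => 1) = Isum β E T c := by
  unfold FK Isum
  rw [sum_Ws]
  have h1 : ∀ w ∈ E.powerset, wr β E c (w ∪ w₀ \ E) * cnt T ((w ∪ w₀ \ E) ∩ E) * 1 =
      ∑ σ ∈ T, (∏ e ∈ w, (exp (β * pr c e) - exp (-(β * pr c e))) * ind (sg σ e = 1)) *
        ∏ e ∈ E \ w, exp (-(β * pr c e)) := by
    intro w hw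
    rw [Finset.mem_powerset] at hw
    have h2 : (w ∪ w₀ \ E) ∩ E = w := by
      ext e
      simp only [Finset.mem_inter, Finset.mem_union, Finset.mem_sdiff]
      exact ⟨fun h => h.1.elim id fun h' => absurd h.2 h'.2, fun h => ⟨Or.inl h, hw h⟩⟩
    rw [h2, ab3_wr β E c w₀ hw, ab3_cnt, mul_one, Finset.mul_sum]
    refine Finset.sum_congr rfl fun σ _ => ?_
    rw [Finset.prod_mul_distrib]
    ring
  rw [Finset.sum_congr rfl h1, Finset.sum_comm]
  refine Finset.sum_congr rfl fun σ _ => ?_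
  rw [Real.exp_sum, Finset.prod_congr rfl fun e _ => ab3_exp1 (β * pr c e) σ e, Finset.prod_add]

lemma gks {T : Finset Fld} (hT : SG T) (E : Es) (K K' : Sym2 V → ℝ) (h : ∀ e ∈ E, |K' e| ≤ K e) :
    ∑ σ ∈ T, exp (∑ e ∈ E, K' e * sg σ e) ≤ ∑ σ ∈ T, exp (∑ e ∈ E, K e * sg σ e) := by
  rw [ab3_expand, ab3_expand]
  refine Finset.sum_le_sum fun B hB => mul_le_mul_of_nonneg_right ?_ (ab3_char hT B)
  rw [Finset.mem_powerset] at hB
  have h1 : ∏ e ∈ B, sinh (K' e) ≤ ∏ e ∈ B, sinh (K e) := by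
    refine (le_abs_self _).trans ?_
    rw [Finset.abs_prod]
    refine Finset.prod_le_prod (fun e _ => abs_nonneg _) fun e he => ?_
    rw [Real.abs_sinh]
    exact Real.sinh_le_sinh.2 (h e (hB he))
  have h2 : ∏ e ∈ E \ B, cosh (K' e) ≤ ∏ e ∈ E \ B, cosh (K e) := by
    refine Finset.prod_le_prod (fun e _ => (Real.cosh_pos _).le) fun e he => ?_
    exact Real.cosh_le_cosh.2 ((h e (Finset.mem_sdiff.1 he).1).trans (le_abs_self _))
  refine mul_le_mul h1 h2 (Finset.prod_nonneg fun e _ => (Real.cosh_pos _).le) ?_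
  exact Finset.prod_nonneg fun e he => Real.sinh_nonneg_iff.2 ((abs_nonneg _).trans (h e (hB he)))

end

end Pool.Agent.XYU

end

section

open Finset Real

namespace Pool.Agent.XYU

open Classical

noncomputable section

variable {β : ℝ}

lemma ab_cases (a : ZMod 2) : a = 0 ∨ a = 1 := by
  revert a
  decide

lemma ab_chi_add (a b : ZMod 2) : chi (a + b) = chi a * chi b := by
  have h : (1 + 1 : ZMod 2) = 0 := by decide
  rcases ab_cases a with rfl | rfl <;> rcases ab_cases b with rfl | rfl <;> simp [chi, h]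

lemma ab_chi_abs (a : ZMod 2) : |chi a| = 1 := by
  unfold chi
  split_ifs <;> simp

lemma ab_sg (σ : Fld) (x y : V) : sg σ s(x, y) = chi (σ x) * chi (σ y) := by
  simp only [sg, Sym2.lift_mk, chi]
  rcases ab_cases (σ x) with h | h <;> rcases ab_cases (σ y) with h' | h' <;> simp [h, h']

lemma ab_shift (c : V → ℝ) (σ ρ : Fld) (e : Sym2 V) :
    pr c e * sg (σ + ρ) e = pr (fun v => c v * chi (ρ v)) e * sg σ e := by
  induction e using Sym2.ind with
  | _ x y =>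
    simp only [ab_sg, pr, Sym2.lift_mk, Pi.add_apply, ab_chi_add]
    ring

lemma ab_self (σ : Fld) : σ + σ = 0 := by
  funext v
  simp only [Pi.add_apply, Pi.zero_apply]
  exact CharTwo.add_self_eq_zero _

lemma ab_sum {T : Finset Fld} (hT : SG T) {σ : Fld} (hσ : σ ∈ T) (F : Fld → ℝ) :
    ∑ τ ∈ T, F τ = ∑ ρ ∈ T, F (σ + ρ) := by
  refine sum_nbij' (fun τ => σ + τ) (fun τ => σ + τ) (fun τ hτ => hT.2 _ hσ _ hτ)
    (fun τ hτ => hT.2 _ hσ _ hτ) (fun τ _ => ?_) (fun τ _ => ?_) (fun τ _ => ?_) <;>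
  simp only [← add_assoc, ab_self, zero_add]

lemma ab_num {p p' m m' : ℝ} (h : |m| ≤ p) (h' : |m'| ≤ p') :
    |p * p' + m * m'| ≤ p * p' + m * m' ∧ |p * m' + m * p'| ≤ p * p' + m * m' := by
  obtain ⟨a1, a2⟩ := abs_le.1 h
  obtain ⟨b1, b2⟩ := abs_le.1 h'
  have e1 := mul_nonneg (sub_nonneg.2 a2) (sub_nonneg.2 b2)
  have e2 : 0 ≤ (p + m) * (p' + m') := mul_nonneg (by linarith) (by linarith)
  exact ⟨(abs_of_nonneg (by nlinarith)).le, abs_le.2 ⟨by nlinarith, by nlinarith⟩⟩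

lemma h4 (hβ : 0 ≤ β) (E : Es) (B : Finset V) {T₁ T₂ T₃ T₄ : Finset Fld} (h₃ : SG T₃) (h₄ : SG T₄)
    (h34 : T₃ ⊆ T₄)
    (hsw : ∀ σ₁ ∈ T₁, ∀ σ₂ ∈ T₂, B.piecewise σ₂ σ₁ ∈ T₃ ∧ B.piecewise σ₁ σ₂ ∈ T₄)
    {c₁ c₂ c₃ c₄ : V → ℝ}
    (hc : ∀ e ∈ E, ∀ v ∈ e, c₃ v = B.piecewise c₂ c₁ v ∧ c₄ v = B.piecewise c₁ c₂ v ∧
      0 ≤ c₄ v ∧ c₄ v ≤ c₃ v) :
    Isum β E T₁ c₁ * Isum β E T₂ c₂ ≤ Isum β E T₃ c₃ * Isum β E T₄ c₄ := by
  obtain ⟨F, hF⟩ : ∃ F : Fld × Fld → ℝ, F = fun p =>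
      exp (∑ e ∈ E, β * pr c₁ e * sg (B.piecewise p.2 p.1) e) *
        exp (∑ e ∈ E, β * pr c₂ e * sg (B.piecewise p.1 p.2) e) := ⟨_, rfl⟩
  have hpw : ∀ σ τ : Fld, B.piecewise (B.piecewise σ τ) (B.piecewise τ σ) = σ := fun σ τ => by
    funext v
    by_cases hv : v ∈ B <;> simp [Finset.piecewise, hv]
  have h1 : Isum β E T₁ c₁ * Isum β E T₂ c₂ ≤ ∑ p ∈ T₃ ×ˢ T₄, F p := by
    have hinj : Set.InjOn (fun p : Fld × Fld => (B.piecewise p.2 p.1, B.piecewise p.1 p.2))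
        (T₁ ×ˢ T₂ : Finset (Fld × Fld)) := fun p _ p' _ h => by
      simp only [Prod.mk.injEq] at h
      refine Prod.ext ?_ ?_
      · rw [← hpw p.1 p.2, ← hpw p'.1 p'.2, h.1, h.2]
      · rw [← hpw p.2 p.1, ← hpw p'.2 p'.1, h.1, h.2]
    rw [Isum, Isum, sum_mul_sum, ← sum_product']
    refine le_trans (le_of_eq ?_) (sum_le_sum_of_subset_of_nonneg
      (s := (T₁ ×ˢ T₂).image fun p => (B.piecewise p.2 p.1, B.piecewise p.1 p.2)) ?_ ?_)
    · rw [sum_image hinj]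
      refine sum_congr rfl fun p _ => ?_
      simp only [hF, hpw]
    · intro p hp
      obtain ⟨p', hp', rfl⟩ := mem_image.1 hp
      exact mem_product.2 (hsw _ (mem_product.1 hp').1 _ (mem_product.1 hp').2)
    · intro p _ _
      rw [hF]
      positivity
  refine h1.trans ?_
  rw [Isum, Isum, sum_mul_sum, sum_product,
    sum_congr rfl fun σ hσ => ab_sum h₄ (h34 hσ) fun τ => F (σ, τ),
    sum_congr rfl fun σ hσ => ab_sum h₄ (h34 hσ) fun τ =>
      exp (∑ e ∈ E, β * pr c₃ e * sg σ e) * exp (∑ e ∈ E, β * pr c₄ e * sg τ e),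
    sum_comm, sum_comm (s := T₃)]
  refine sum_le_sum fun ρ _ => ?_
  have key := gks h₃ E (fun e => β * (pr c₃ e + pr (fun v => c₄ v * chi (ρ v)) e))
    (fun e => β * (pr (fun v => c₁ v * chi (B.piecewise ρ 0 v)) e +
      pr (fun v => c₂ v * chi (B.piecewise 0 ρ v)) e)) ?_
  · refine le_trans (le_of_eq ?_) (key.trans (le_of_eq ?_))
    · refine sum_congr rfl fun σ _ => ?_
      have e1 : B.piecewise (σ + ρ) σ = σ + B.piecewise ρ 0 := by
        funext v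
        by_cases hv : v ∈ B <;> simp [Finset.piecewise, hv]
      have e2 : B.piecewise σ (σ + ρ) = σ + B.piecewise 0 ρ := by
        funext v
        by_cases hv : v ∈ B <;> simp [Finset.piecewise, hv]
      simp only [hF, e1, e2, mul_assoc, ab_shift]
      rw [← exp_add, ← sum_add_distrib]
      congr 1
      exact sum_congr rfl fun e _ => by ring
    · refine sum_congr rfl fun σ _ => ?_
      simp only [mul_assoc, ab_shift]
      rw [← exp_add, ← sum_add_distrib]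
      congr 1
      exact sum_congr rfl fun e _ => by ring
  · intro e he
    induction e using Sym2.ind with
    | _ x y =>
      obtain ⟨x1, x2, x3, x4⟩ := hc _ he x (Sym2.mem_mk_left x y)
      obtain ⟨y1, y2, y3, y4⟩ := hc _ he y (Sym2.mem_mk_right x y)
      have hx : |c₄ x * chi (ρ x)| ≤ c₃ x := by rwa [abs_mul, ab_chi_abs, mul_one, abs_of_nonneg x3]
      have hy : |c₄ y * chi (ρ y)| ≤ c₃ y := by rwa [abs_mul, ab_chi_abs, mul_one, abs_of_nonneg y3]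
      obtain ⟨n1, n2⟩ := ab_num hx hy
      have h0 : chi 0 = 1 := by simp [chi]
      rw [abs_mul, abs_of_nonneg hβ]
      refine mul_le_mul_of_nonneg_left ?_ hβ
      simp only [pr, Sym2.lift_mk]
      by_cases hxB : x ∈ B <;> by_cases hyB : y ∈ B <;>
        simp only [Finset.piecewise, hxB, hyB, if_true, if_false, Pi.zero_apply, h0,
          mul_one] at x1 x2 y1 y2 ⊢ <;> rw [← x1, ← x2, ← y1, ← y2]
      · rwa [add_comm]
      · rwa [add_comm]
      · exact n2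
      · exact n1

end

end Pool.Agent.XYU

end
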